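import Pool.Agent.E8helper48.RX.Comm
import Pool.Agent.E8helper48.RW.Almost
import Pool.Agent.H340R2.LW

/-!
# Random expressions in `e`, `1/π`, `γ` and periods of one variable: the parts

The three parts of `Pool/Agent/E8helper48/Moved/RandomExpressionsH48.lean` (problem MP_725b61_nt).
-/

set_option autoImplicit false

namespace Pool.Agent.E8helper48.RX.All

open Filter MeasureTheory
open Pool.Agent.H301R2.SSE (QB mem_QB Lt Lt_alg Lt_log)
open Pool.Agent.E8helper48.RW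
open Pool.Agent.E8helper48.RX
open Pool.Agent.TH379.PER

/-- The result of applying to `x` the operations `f (w 0)`, `f (w 1)`, …, `f (w (n - 1))` in turn. -/
def run {ι X : Type} (f : ι → X → X) {n : ℕ} (w : Fin n → ι) (x : X) : X :=
  (List.ofFn w).foldl (fun y i => f i y) x

/-- The numbers `1`, `e`, `1/π`, `γ`. -/
noncomputable def num : Fin 4 → ℂ :=
  ![1, Complex.exp 1, 1 / (Real.pi : ℂ), (Real.eulerMascheroniConstant : ℂ)]

/-- The operations `y * e`, `y / π`, `y * γ`, `y + 1`. -/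
noncomputable def ops : Fin 4 → ℂ → ℂ :=
  ![fun y => y * Complex.exp 1, fun y => y / (Real.pi : ℂ),
    fun y => y * (Real.eulerMascheroniConstant : ℂ), fun y => y + 1]

theorem count_eq {ι : Type} [Fintype ι] (n : ℕ) (Q : List ι → Prop) :
    (Nat.card {w : Fin n → ι // Q (List.ofFn w)} : ℝ) = S n (fun l => ind (Q l)) := by
  classical
  rw [S_ofFn, Nat.card_eq_fintype_card, Fintype.card_subtype, Finset.card_filter, Nat.cast_sum]
  refine Finset.sum_congr rfl fun w _ => ?_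
  by_cases h : Q (List.ofFn w)
  · rw [if_pos h, ind_pos h, Nat.cast_one]
  · rw [if_neg h, ind_neg h, Nat.cast_zero]

theorem card_mono {α : Type} [Finite α] {P Q : α → Prop} (h : ∀ x, P x → Q x) :
    (Nat.card {x // P x} : ℝ) ≤ Nat.card {x // Q x} := by
  exact_mod_cast Nat.card_le_card_of_injective (fun x : {x // P x} => (⟨x.1, h x.1 x.2⟩ : {x // Q x}))
    fun x y hxy => Subtype.ext (by simpa using hxy)

/-- the constant -/
noncomputable def cq (q : ℕ) : ℝ := if 1 ≤ q then c0 ((q : ℝ) ^ 5) / 2 else 1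

theorem cq_pos (q : ℕ) : 0 < cq q := by
  unfold cq
  split_ifs with h
  · have h1 : (1 : ℝ) ≤ q := by exact_mod_cast h
    have := c0_pos (one_le_pow₀ (n := 5) h1)
    positivity
  · norm_num

instance spanFd {g : ℕ} (δ : Fin g → ℂ) : FiniteDimensional QB (Submodule.span QB (Set.range δ)) :=
  FiniteDimensional.span_of_finite QB (Set.finite_range _)

theorem span_le {g : ℕ} (δ : Fin g → ℂ) :
    Module.finrank QB (Submodule.span QB (Set.range δ)) ≤ g := by
  have h1 := finrank_range_le_card (R := QB) δ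
  rwa [Fintype.card_fin, Set.finrank] at h1

theorem PP_ofFn {ι : Type} [DecidableEq ι] (t : ι → ℂ) {n : ℕ} (w : Fin n → ι) :
    PP t (List.ofFn w) = ∏ k, t (w k) := by
  have h1 : ∀ l : List ι, PP t l = (l.map t).prod := by
    intro l
    induction l with
    | nil => rfl
    | cons u l ih => rw [PP, ih, List.map_cons, List.prod_cons]
  rw [h1, List.map_ofFn, List.prod_ofFn]
  rfl

theorem partA {ι : Type} [Fintype ι] (t : ι → ℂ) (ht : ∀ i, t i ≠ 0)
    (h : ∃ i j, Transcendental ℚ (t i / t j)) {g : ℕ} (δ : Fin g → ℂ) (y : ℂ) (hy : y ≠ 0) (n : ℕ) :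
    (Nat.card {w : Fin n → ι // y * ∏ k, t (w k) ∈ Forms δ} : ℝ) ≤
      (g + 3) * (Fintype.card ι + 6) * (Fintype.card ι : ℝ) ^ n / ((n : ℝ) + 1) ^ (1 / 4 : ℝ) := by
  classical
  obtain ⟨i, j, hij⟩ := h
  have h1 := products ht hij (Submodule.span QB (Set.range δ)) hy n
  have h2 : (Nat.card {w : Fin n → ι // y * ∏ k, t (w k) ∈ Forms δ} : ℝ) ≤
      S n (fun l => ind (y * PP t l ∈ Lt ⊔ Submodule.span QB (Set.range δ))) := by
    rw [← count_eq]
    refine card_mono fun w hw => ?_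
    rw [PP_ofFn]
    exact Forms_le δ hw
  refine h2.trans (h1.trans ?_)
  have h3 : (Module.finrank QB (Submodule.span QB (Set.range δ)) : ℝ) ≤ g := by
    exact_mod_cast span_le δ
  have h4 : (0 : ℝ) < ((n : ℝ) + 1) ^ (1 / 4 : ℝ) := by positivity
  apply div_le_div_of_nonneg_right _ h4.le
  apply mul_le_mul_of_nonneg_right _ (by positivity)
  apply mul_le_mul_of_nonneg_right _ (by positivity)
  linarith

theorem partC {ι : Type} [Fintype ι] (a b : ι → ℂ) (ha : ∀ i, a i ≠ 0)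
    (hk : ∃ k, Transcendental ℚ (a k)) (hc : ∃ i j, a i * b j + b i ≠ a j * b i + b j)
    {g : ℕ} (δ : Fin g → ℂ) (n : ℕ) (y : ℂ) :
    (Nat.card {w : Fin n → ι // run (fun i y => a i * y + b i) w y ∈ Forms δ} : ℝ) ≤
      16 * 2 ^ g * (Fintype.card ι : ℝ) ^ n *
        Real.exp (-(cq (Fintype.card ι) * (n : ℝ) ^ (1 / 3 : ℝ))) := by
  classical
  have hc' : ∃ i j, (a i - 1) * b j ≠ (a j - 1) * b i := by
    obtain ⟨i, j, hij⟩ := hc
    refine ⟨i, j, fun h => hij ?_⟩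
    linear_combination h
  have h1 := affine a b ha hk hc' (Submodule.span QB (Set.range δ)) n y
  have hq : 1 ≤ Fintype.card ι := Fintype.card_pos_iff.2 ⟨hk.choose⟩
  unfold cq
  rw [if_pos hq]
  have h2 : (Nat.card {w : Fin n → ι // run (fun i y => a i * y + b i) w y ∈ Forms δ} : ℝ) ≤
      S n (fun l => ind (val a b l y ∈ Lt ⊔ Submodule.span QB (Set.range δ))) := by
    rw [← count_eq]
    refine card_mono fun w hw => ?_
    rw [val_foldl]
    exact Forms_le δ hw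
  refine h2.trans (h1.trans ?_)
  have h3 : (2 : ℝ) ^ Module.finrank QB (Submodule.span QB (Set.range δ)) ≤ 2 ^ g :=
    pow_le_pow_right₀ (by norm_num) (span_le δ)
  apply mul_le_mul_of_nonneg_right _ (Real.exp_pos _).le
  apply mul_le_mul_of_nonneg_right _ (by positivity)
  linarith

theorem partE {J : Type} [Fintype J] (z : J → ℂ) {θ μ : ℂ} (hθ : Transcendental ℚ θ) (hμ : μ ≠ 0)
    (N : ℕ) (hz : ∀ k ≤ N, ∃ j, z j = μ * θ ^ k) {g : ℕ} (δ : Fin g → ℂ) (y : ℂ) :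
    (Nat.card {r : Finset J // y + ∑ j ∈ r, z j ∈ Forms δ} : ℝ) ≤
      2 ^ Fintype.card J * (2 : ℝ) ^ (2 * √(N : ℝ) + g - N) := by
  classical
  have h1 := subsums z hθ hμ N hz (Submodule.span QB (Set.range δ)) y
  refine (card_mono fun r hr => Forms_le δ hr).trans (h1.trans ?_)
  have h3 : (Module.finrank QB (Submodule.span QB (Set.range δ)) : ℝ) ≤ g := by
    exact_mod_cast span_le δ
  apply mul_le_mul_of_nonneg_left _ (by positivity)
  apply Real.rpow_le_rpow_of_exponent_le (by norm_num)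
  linarith

theorem e_transc : Transcendental ℚ (Complex.exp 1) :=
  Pool.Agent.H340R2.LW.transcendental_exp_one_complex

theorem pi_transc : Transcendental ℚ (1 / (Real.pi : ℂ)) := by
  intro h
  have h1 := h.inv
  rw [one_div, inv_inv] at h1
  exact Pool.Agent.H340R2.LW.transcendental_pi_complex h1

theorem euler_ne : (Real.eulerMascheroniConstant : ℂ) ≠ 0 := by
  have := Real.one_half_lt_eulerMascheroniConstant
  have h1 : Real.eulerMascheroniConstant ≠ 0 := by linarith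
  exact_mod_cast h1

theorem pi_ne : (Real.pi : ℂ) ≠ 0 := by exact_mod_cast Real.pi_ne_zero

theorem num_ne (i : Fin 4) : num i ≠ 0 := by
  fin_cases i
  · simp [num]
  · simp [num]
  · simp [num, Real.pi_ne_zero]
  · simpa [num] using euler_ne

theorem ops_eq : ops = fun i y => (![Complex.exp 1, 1 / (Real.pi : ℂ),
    (Real.eulerMascheroniConstant : ℂ), 1] : Fin 4 → ℂ) i * y + (![0, 0, 0, 1] : Fin 4 → ℂ) i := by
  funext i y
  fin_cases i
  · simp [ops]; ring
  · simp [ops]; ring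
  · simp [ops]; ring
  · simp [ops]

theorem two_eq : (![fun y => y / (Real.pi : ℂ), fun y => y + 1] : Fin 2 → ℂ → ℂ) =
    fun i y => (![1 / (Real.pi : ℂ), 1] : Fin 2 → ℂ) i * y + (![0, 1] : Fin 2 → ℂ) i := by
  funext i y
  fin_cases i
  · simp; ring
  · simp

theorem partD {g : ℕ} (δ : Fin g → ℂ) (n : ℕ) (y : ℂ) :
    (Nat.card {w : Fin n → Fin 4 // run ops w y ∈ Forms δ} : ℝ) ≤
      16 * 2 ^ g * 4 ^ n * Real.exp (-(cq 4 * (n : ℝ) ^ (1 / 3 : ℝ))) := by
  have h1 := partC (![Complex.exp 1, 1 / (Real.pi : ℂ),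
    (Real.eulerMascheroniConstant : ℂ), 1] : Fin 4 → ℂ) (![0, 0, 0, 1] : Fin 4 → ℂ) (by
      intro i
      fin_cases i
      · simp
      · simp [Real.pi_ne_zero]
      · simpa using euler_ne
      · simp) ⟨0, by simpa using e_transc⟩ ⟨0, 3, by
        simp only [Matrix.cons_val_zero, Matrix.cons_val, mul_one, add_zero, mul_zero, zero_add]
        intro h
        exact e_transc (by rw [h]; exact isAlgebraic_one)⟩ δ n y
  rw [← ops_eq, Fintype.card_fin] at h1
  exact_mod_cast h1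

theorem partD' {g : ℕ} (δ : Fin g → ℂ) (n : ℕ) (y : ℂ) :
    (Nat.card {w : Fin n → Fin 2 //
      run ![fun y => y / (Real.pi : ℂ), fun y => y + 1] w y ∈ Forms δ} : ℝ) ≤
      16 * 2 ^ g * 2 ^ n * Real.exp (-(cq 2 * (n : ℝ) ^ (1 / 3 : ℝ))) := by
  have h1 := partC (![1 / (Real.pi : ℂ), 1] : Fin 2 → ℂ) (![0, 1] : Fin 2 → ℂ) (by
      intro i
      fin_cases i
      · simp [Real.pi_ne_zero]
      · simp) ⟨0, by simpa using pi_transc⟩ ⟨0, 1, by
        simp only [Matrix.cons_val_zero, Matrix.cons_val_one, mul_one, add_zero, mul_zero, zero_add]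
        intro h
        exact pi_transc (by rw [h]; exact isAlgebraic_one)⟩ δ n y
  rw [← two_eq, Fintype.card_fin] at h1
  exact_mod_cast h1

theorem products_result :
    -- (A) random products
    (∀ (ι : Type) [Fintype ι] (t : ι → ℂ), (∀ i, t i ≠ 0) →
      (∃ i j, Transcendental ℚ (t i / t j)) →
      ∀ (g : ℕ) (δ : Fin g → ℂ) (y : ℂ), y ≠ 0 → ∀ n : ℕ,
        (Nat.card {w : Fin n → ι // y * ∏ k, t (w k) ∈ Forms δ} : ℝ) ≤
          (g + 3) * (Fintype.card ι + 6) * (Fintype.card ι : ℝ) ^ n /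
            ((n : ℝ) + 1) ^ (1 / 4 : ℝ)) ∧
    -- (B) random products of the numbers `1`, `e`, `1/π`, `γ`
    (∀ (g : ℕ) (δ : Fin g → ℂ) (y : ℂ), y ≠ 0 → ∀ n : ℕ,
      (Nat.card {w : Fin n → Fin 4 // y * ∏ k, num (w k) ∈ Forms δ} : ℝ) ≤
        10 * (g + 3) * 4 ^ n / ((n : ℝ) + 1) ^ (1 / 4 : ℝ)) := by
  refine ⟨?_, ?_⟩
  · intro ι _ t ht h g δ y hy n
    exact partA t ht h δ y hy n
  · intro g δ y hy n
    have h1 := partA num num_ne ⟨1, 0, by simpa [num] using e_transc⟩ δ y hy n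
    rw [Fintype.card_fin] at h1
    have h2 : ((g : ℝ) + 3) * (((4 : ℕ) : ℝ) + 6) * ((4 : ℕ) : ℝ) ^ n / ((n : ℝ) + 1) ^ (1 / 4 : ℝ) =
        10 * (g + 3) * 4 ^ n / ((n : ℝ) + 1) ^ (1 / 4 : ℝ) := by
      push_cast
      ring
    rw [h2] at h1
    exact h1

theorem operations_result :
    -- (C) random words of affine maps
    (∀ q : ℕ, ∃ c > 0, ∀ (ι : Type) [Fintype ι] (a b : ι → ℂ), Fintype.card ι = q →
      (∀ i, a i ≠ 0) → (∃ k, Transcendental ℚ (a k)) →
      (∃ i j, a i * b j + b i ≠ a j * b i + b j) →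
      ∀ (g : ℕ) (δ : Fin g → ℂ) (n : ℕ) (y : ℂ),
        (Nat.card {w : Fin n → ι // run (fun i y => a i * y + b i) w y ∈ Forms δ} : ℝ) ≤
          16 * 2 ^ g * (q : ℝ) ^ n * Real.exp (-(c * (n : ℝ) ^ (1 / 3 : ℝ)))) ∧
    (∀ (ι : Type) [Fintype ι] [Nonempty ι] [MeasurableSpace ι] [MeasurableSingletonClass ι]
      (a b : ι → ℂ), (∀ i, a i ≠ 0) → (∃ k, Transcendental ℚ (a k)) →
      (∃ i j, a i * b j + b i ≠ a j * b i + b j) → ∀ (g : ℕ) (δ : Fin g → ℂ) (y : ℂ),
        ∀ᵐ ω ∂(Measure.infinitePi fun _ : ℕ => (PMF.uniformOfFintype ι).toMeasure),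
          ∀ᶠ n : ℕ in atTop,
            run (fun i y => a i * y + b i) (fun k : Fin n => ω k) y ∉ Forms δ) ∧
    -- (D) the operations `y * e`, `y / π`, `y * γ`, `y + 1`
    (∃ c > 0, ∀ (g : ℕ) (δ : Fin g → ℂ) (n : ℕ) (y : ℂ),
      (Nat.card {w : Fin n → Fin 4 // run ops w y ∈ Forms δ} : ℝ) ≤
        16 * 2 ^ g * 4 ^ n * Real.exp (-(c * (n : ℝ) ^ (1 / 3 : ℝ))) ∧
      (Nat.card {w : Fin n → Fin 2 //
        run ![fun y => y / (Real.pi : ℂ), fun y => y + 1] w y ∈ Forms δ} : ℝ) ≤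
        16 * 2 ^ g * 2 ^ n * Real.exp (-(c * (n : ℝ) ^ (1 / 3 : ℝ)))) ∧
    (∀ (g : ℕ) (δ : Fin g → ℂ) (y : ℂ),
      ∀ᵐ ω ∂(Measure.infinitePi fun _ : ℕ => (PMF.uniformOfFintype (Fin 4)).toMeasure),
        ∀ᶠ n : ℕ in atTop, run ops (fun k : Fin n => ω k) y ∉ Forms δ) := by
  refine ⟨?_, ?_, ?_, ?_⟩
  · intro q
    refine ⟨cq q, cq_pos q, ?_⟩
    intro ι _ a b hq ha hk hc g δ n y
    subst hq
    exact partC a b ha hk hc δ n y
  · intro ι _ _ _ _ a b ha hk hc g δ y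
    exact almost (fun n w => run (fun i y => a i * y + b i) w y ∈ Forms δ)
      (cq_pos (Fintype.card ι)) (by positivity : (0 : ℝ) ≤ 16 * 2 ^ g)
      (fun n => partC a b ha hk hc δ n y)
  · refine ⟨min (cq 4) (cq 2), lt_min (cq_pos 4) (cq_pos 2), fun g δ n y => ?_⟩
    have hmono : ∀ (k : ℕ) (A : ℝ), 0 ≤ A → min (cq 4) (cq 2) ≤ cq k →
        A * Real.exp (-(cq k * (n : ℝ) ^ (1 / 3 : ℝ))) ≤
          A * Real.exp (-(min (cq 4) (cq 2) * (n : ℝ) ^ (1 / 3 : ℝ))) := by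
      intro k A hA hk
      apply mul_le_mul_of_nonneg_left _ hA
      apply Real.exp_le_exp.2
      have := mul_le_mul_of_nonneg_right hk (show 0 ≤ (n : ℝ) ^ (1 / 3 : ℝ) by positivity)
      linarith
    exact ⟨(partD δ n y).trans (hmono 4 _ (by positivity) (min_le_left _ _)),
      (partD' δ n y).trans (hmono 2 _ (by positivity) (min_le_right _ _))⟩
  · intro g δ y
    refine almost (fun n w => run ops w y ∈ Forms δ) (cq_pos 4)
      (by positivity : (0 : ℝ) ≤ 16 * 2 ^ g) (fun n => ?_)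
    have h1 := partD δ n y
    rw [Fintype.card_fin]
    exact_mod_cast h1

theorem polynomials_result :
    -- (E) random subsums
    (∀ (J : Type) [Fintype J] (z : J → ℂ) (θ μ : ℂ), Transcendental ℚ θ → μ ≠ 0 →
      ∀ N : ℕ, (∀ k ≤ N, ∃ j, z j = μ * θ ^ k) → ∀ (g : ℕ) (δ : Fin g → ℂ) (y : ℂ),
        (Nat.card {r : Finset J // y + ∑ j ∈ r, z j ∈ Forms δ} : ℝ) ≤
          2 ^ Fintype.card J * (2 : ℝ) ^ (2 * √(N : ℝ) + g - N)) ∧
    -- (F) random polynomials in the three numbers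
    (∀ (N g : ℕ) (δ : Fin g → ℂ) (y : ℂ),
      (Nat.card {r : Finset (Fin (N + 1) × Fin (N + 1) × Fin (N + 1)) // y + ∑ j ∈ r,
        Complex.exp 1 ^ (j.1 : ℕ) * (1 / (Real.pi : ℂ)) ^ (j.2.1 : ℕ) *
          (Real.eulerMascheroniConstant : ℂ) ^ (j.2.2 : ℕ) ∈ Forms δ} : ℝ) ≤
        2 ^ ((N + 1) ^ 3) * (2 : ℝ) ^ (2 * √(N : ℝ) + g - N)) := by
  refine ⟨?_, ?_⟩
  · intro J _ z θ μ hθ hμ N hz g δ y
    exact partE z hθ hμ N hz δ y
  · intro N g δ y
    have h1 := partE (J := Fin (N + 1) × Fin (N + 1) × Fin (N + 1))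
      (fun j => Complex.exp 1 ^ (j.1 : ℕ) * (1 / (Real.pi : ℂ)) ^ (j.2.1 : ℕ) *
          (Real.eulerMascheroniConstant : ℂ) ^ (j.2.2 : ℕ)) (θ := Complex.exp 1) (μ := 1)
      e_transc one_ne_zero N (fun k hk => ⟨(⟨k, by omega⟩, ⟨0, by omega⟩, ⟨0, by omega⟩), by simp⟩)
      δ y
    have h2 : Fintype.card (Fin (N + 1) × Fin (N + 1) × Fin (N + 1)) = (N + 1) ^ 3 := by
      rw [Fintype.card_prod, Fintype.card_prod, Fintype.card_fin]; ring
    rw [h2] at h1
    exact h1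

end Pool.Agent.E8helper48.RX.All
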