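import Pool.Agent.E8helper48.RW.Anti

/-!
# Binomial sums over sets which are thin in short intervals
-/

set_option autoImplicit false

namespace Pool.Agent.E8helper48.RX

open Pool.Agent.E8helper48.RW

theorem choose_up {K m : ℕ} (h : 2 * m + 1 ≤ K) : K.choose m ≤ K.choose (m + 1) := by
  have h1 := Nat.choose_succ_right_eq K m
  have h2 : m + 1 ≤ K - m := by omega
  have h3 : K.choose m * (m + 1) ≤ K.choose (m + 1) * (m + 1) := by
    rw [h1]
    exact Nat.mul_le_mul_left _ h2
  exact Nat.le_of_mul_le_mul_right h3 (Nat.succ_pos m)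

theorem choose_down {K m : ℕ} (h : K ≤ 2 * m + 1) : K.choose (m + 1) ≤ K.choose m := by
  have h1 := Nat.choose_succ_right_eq K m
  have h2 : K - m ≤ m + 1 := by omega
  have h3 : K.choose (m + 1) * (m + 1) ≤ K.choose m * (m + 1) := by
    rw [h1]
    exact Nat.mul_le_mul_left _ h2
  exact Nat.le_of_mul_le_mul_right h3 (Nat.succ_pos m)

/-- the total variation of a binomial distribution -/
theorem tv (K T : ℕ) : ∑ m ∈ Finset.range T, |(K.choose (m + 1) : ℝ) - K.choose m| ≤
    2 * K.choose (K / 2) := by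
  set h := K / 2 with hh
  have h1 : ∀ T, T ≤ h → ∑ m ∈ Finset.range T, |(K.choose (m + 1) : ℝ) - K.choose m| =
      K.choose T - K.choose 0 := by
    intro T
    induction T with
    | zero => intro _; simp
    | succ T ih =>
      intro hT
      rw [Finset.sum_range_succ, ih (by omega), abs_of_nonneg]
      · ring
      · rw [sub_nonneg]
        exact_mod_cast choose_up (by omega)
  have h2 : ∀ k, ∑ m ∈ Finset.range (h + k), |(K.choose (m + 1) : ℝ) - K.choose m| =
      2 * K.choose h - K.choose 0 - K.choose (h + k) := by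
    intro k
    induction k with
    | zero => rw [Nat.add_zero, h1 h le_rfl]; ring
    | succ k ih =>
      rw [← Nat.add_assoc, Finset.sum_range_succ, ih, abs_of_nonpos]
      · ring
      · rw [sub_nonpos]
        exact_mod_cast choose_down (by omega)
  rcases le_total T h with hT | hT
  · rw [h1 T hT]
    have h3 : (K.choose T : ℝ) ≤ K.choose h := by exact_mod_cast Nat.choose_le_middle T K
    have h4 : (0 : ℝ) ≤ K.choose 0 := by positivity
    have h5 : (0 : ℝ) ≤ K.choose h := by positivity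
    linarith
  · obtain ⟨k, rfl⟩ := Nat.exists_eq_add_of_le hT
    rw [h2 k]
    have h4 : (0 : ℝ) ≤ K.choose 0 := by positivity
    have h5 : (0 : ℝ) ≤ K.choose (h + k) := by positivity
    linarith

theorem step_le (f : ℕ → ℝ) (j : ℕ) : ∀ i, f j ≤ f (j + i) +
    ∑ k ∈ Finset.range i, |f (j + k + 1) - f (j + k)| := by
  intro i
  induction i with
  | zero => simp
  | succ i ih =>
    rw [Finset.sum_range_succ, ← Nat.add_assoc]
    have := neg_abs_le (f (j + i + 1) - f (j + i))
    linarith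

/-- **thin sets.** -/
theorem thin (J : ℕ → Prop) [DecidablePred J] (K D : ℕ) (hD : 1 ≤ D) (M : ℝ)
    (hJ : ∀ a, (((Finset.range D).filter fun i => J (a + i)).card : ℝ) ≤ M) :
    ∑ j ∈ (Finset.range (K + 1)).filter J, (K.choose j : ℝ) ≤
      M * (2 ^ K / D + 2 * K.choose (K / 2)) := by
  have hD' : (0 : ℝ) < D := by exact_mod_cast hD
  have hM : 0 ≤ M := le_trans (Nat.cast_nonneg _) (hJ 0)
  set f : ℕ → ℝ := fun m => (K.choose m : ℝ) with hf
  set g : ℕ → ℝ := fun m => f m + D * |f (m + 1) - f m| with hg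
  have hg0 : ∀ m, 0 ≤ g m := by
    intro m
    have : 0 ≤ f m := Nat.cast_nonneg _
    positivity
  set T := K + 1 + D with hT
  -- pointwise
  have h1 : ∀ j, D * f j ≤ ∑ i ∈ Finset.range D, g (j + i) := by
    intro j
    have h2 : ∑ i ∈ Finset.range D, g (j + i) = ∑ i ∈ Finset.range D, f (j + i) +
        D * ∑ k ∈ Finset.range D, |f (j + k + 1) - f (j + k)| := by
      rw [Finset.mul_sum, ← Finset.sum_add_distrib]
    rw [h2]
    have h3 : ∀ i ∈ Finset.range D, f j - ∑ k ∈ Finset.range D, |f (j + k + 1) - f (j + k)| ≤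
        f (j + i) := by
      intro i hi
      have h4 := step_le f j i
      have h5 : ∑ k ∈ Finset.range i, |f (j + k + 1) - f (j + k)| ≤
          ∑ k ∈ Finset.range D, |f (j + k + 1) - f (j + k)| := by
        apply Finset.sum_le_sum_of_subset_of_nonneg
        · exact Finset.range_mono (Finset.mem_range.1 hi).le
        · intro _ _ _; exact abs_nonneg _
      linarith
    have h6 := Finset.sum_le_sum h3
    rw [Finset.sum_const, Finset.card_range, nsmul_eq_mul] at h6
    linarith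
  -- double counting
  have h2 : ∑ j ∈ (Finset.range (K + 1)).filter J, ∑ i ∈ Finset.range D, g (j + i) ≤
      ∑ m ∈ Finset.range T, M * g m := by
    have h3 : ∀ j ∈ (Finset.range (K + 1)).filter J, ∑ i ∈ Finset.range D, g (j + i) =
        ∑ m ∈ Finset.range T, if j ≤ m ∧ m < j + D then g m else 0 := by
      intro j hj
      have hj' := Finset.mem_range.1 (Finset.mem_filter.1 hj).1
      rw [← Finset.sum_filter]
      refine Finset.sum_bij' (fun i _ => j + i) (fun m _ => m - j) ?_ ?_ ?_ ?_ ?_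
      · intro i hi
        have := Finset.mem_range.1 hi
        simp only [Finset.mem_filter, Finset.mem_range]
        omega
      · intro m hm
        simp only [Finset.mem_filter, Finset.mem_range] at hm
        rw [Finset.mem_range]
        omega
      · intro i _
        show j + i - j = i
        omega
      · intro m hm
        simp only [Finset.mem_filter, Finset.mem_range] at hm
        show j + (m - j) = m
        omega
      · intro i _; rfl
    rw [Finset.sum_congr rfl h3, Finset.sum_comm]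
    refine Finset.sum_le_sum fun m _ => ?_
    rw [← Finset.sum_filter, Finset.sum_const, nsmul_eq_mul]
    apply mul_le_mul_of_nonneg_right _ (hg0 m)
    refine le_trans ?_ (hJ (m + 1 - D))
    have h4 : (((Finset.range (K + 1)).filter J).filter fun j => j ≤ m ∧ m < j + D).card ≤
        ((Finset.range D).filter fun i => J (m + 1 - D + i)).card := by
      apply Finset.card_le_card_of_injOn (fun j => j - (m + 1 - D))
      · intro j hj
        simp only [Finset.coe_filter, Finset.mem_filter, Finset.mem_range, Set.mem_ofPred_eq] at hj ⊢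
        refine ⟨by omega, ?_⟩
        have : m + 1 - D + (j - (m + 1 - D)) = j := by omega
        rw [this]
        exact hj.1.2
      · intro a ha b hb hab
        simp only [Finset.coe_filter, Finset.mem_filter, Finset.mem_range, Set.mem_ofPred_eq] at ha hb
        have hab' : a - (m + 1 - D) = b - (m + 1 - D) := hab
        omega
    exact_mod_cast h4
  have h3 : ∑ m ∈ Finset.range T, f m = 2 ^ K := by
    have h4 : ∑ m ∈ Finset.range T, K.choose m = 2 ^ K := by
      rw [← Nat.sum_range_choose K, hT, Finset.sum_range_add]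
      have : ∑ x ∈ Finset.range D, K.choose (K + 1 + x) = 0 :=
        Finset.sum_eq_zero fun x _ => Nat.choose_eq_zero_of_lt (by omega)
      rw [this, Nat.add_zero]
    have h5 : ((∑ m ∈ Finset.range T, K.choose m : ℕ) : ℝ) = ((2 ^ K : ℕ) : ℝ) := by rw [h4]
    rw [Nat.cast_sum] at h5
    rw [hf]
    simpa using h5
  have h4 := tv K T
  have h5 : ∑ m ∈ Finset.range T, g m ≤ 2 ^ K + D * (2 * K.choose (K / 2)) := by
    rw [hg, Finset.sum_add_distrib, ← Finset.mul_sum, h3]
    have := mul_le_mul_of_nonneg_left h4 hD'.le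
    linarith
  have h6 : D * ∑ j ∈ (Finset.range (K + 1)).filter J, f j ≤
      M * (2 ^ K + D * (2 * K.choose (K / 2))) := by
    calc D * ∑ j ∈ (Finset.range (K + 1)).filter J, f j
        = ∑ j ∈ (Finset.range (K + 1)).filter J, D * f j := Finset.mul_sum _ _ _
      _ ≤ ∑ j ∈ (Finset.range (K + 1)).filter J, ∑ i ∈ Finset.range D, g (j + i) :=
          Finset.sum_le_sum fun j _ => h1 j
      _ ≤ _ := h2
      _ = M * ∑ m ∈ Finset.range T, g m := by rw [Finset.mul_sum]
      _ ≤ _ := mul_le_mul_of_nonneg_left h5 hM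
  have h7 : M * (2 ^ K / D + 2 * K.choose (K / 2)) = (M * (2 ^ K + D * (2 * K.choose (K / 2)))) / D := by
    field_simp
  rw [h7, le_div_iff₀ hD', mul_comm]
  exact h6

/-- the choice of the length of the windows -/
theorem thin' (J : ℕ → Prop) [DecidablePred J] (K : ℕ) (g : ℝ) (hg : 0 ≤ g)
    (hJ : ∀ a N, (((Finset.range (N + 1)).filter fun i => J (a + i)).card : ℝ) ≤
      2 * √(N : ℝ) + 1 + g) :
    (∑ j ∈ (Finset.range (K + 1)).filter J, (K.choose j : ℝ)) / 2 ^ K ≤
      (9 + 3 * g) * ((K : ℝ) + 1)⁻¹ ^ (1 / 4 : ℝ) := by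
  set x : ℝ := ((K : ℝ) + 1) ^ (1 / 4 : ℝ) with hx
  have hK : (1 : ℝ) ≤ (K : ℝ) + 1 := by
    have : (0 : ℝ) ≤ K := Nat.cast_nonneg _
    linarith
  have hx1 : 1 ≤ x := Real.one_le_rpow hK (by norm_num)
  have hx4 : x ^ 4 = (K : ℝ) + 1 := by
    rw [hx, ← Real.rpow_natCast, ← Real.rpow_mul (by linarith)]
    norm_num
  have hx2 : √((K : ℝ) + 1) = x ^ 2 := by
    rw [← hx4, show x ^ 4 = (x ^ 2) ^ 2 by ring, Real.sqrt_sq (by positivity)]
  set N := ⌈x ^ 2⌉₊ - 1 with hN
  have hc1 : x ^ 2 ≤ (⌈x ^ 2⌉₊ : ℝ) := Nat.le_ceil _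
  have hc2 : (⌈x ^ 2⌉₊ : ℝ) < x ^ 2 + 1 := Nat.ceil_lt_add_one (by positivity)
  have hc3 : 1 ≤ ⌈x ^ 2⌉₊ := Nat.one_le_ceil_iff.2 (by positivity)
  have hN1 : ((N + 1 : ℕ) : ℝ) = ⌈x ^ 2⌉₊ := by
    rw [hN, Nat.sub_add_cancel hc3]
  have hNx : (N : ℝ) ≤ x ^ 2 := by
    push_cast at hN1
    linarith
  have h1 := thin J K (N + 1) (by omega) (2 * √(N : ℝ) + 1 + g) (fun a => hJ a N)
  have h2 : √(N : ℝ) ≤ x := by
    calc √(N : ℝ) ≤ √(x ^ 2) := Real.sqrt_le_sqrt hNx
      _ = x := Real.sqrt_sq (by linarith)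
  have h3 := choose_le_real K (K / 2)
  rw [hx2] at h3
  rw [div_le_iff₀ (by positivity)]
  refine h1.trans ?_
  have h4 : (2 : ℝ) ^ K / ((N + 1 : ℕ) : ℝ) ≤ 2 ^ K * (x ^ 2)⁻¹ := by
    rw [hN1, div_eq_mul_inv]
    apply mul_le_mul_of_nonneg_left _ (by positivity)
    exact inv_anti₀ (by positivity) hc1
  have h5 : (K.choose (K / 2) : ℝ) ≤ 2 ^ K * (x ^ 2)⁻¹ := by
    rw [div_le_iff₀ (by positivity)] at h3
    linarith
  have h6 : ((K : ℝ) + 1)⁻¹ ^ (1 / 4 : ℝ) = x⁻¹ := by
    rw [Real.inv_rpow (by linarith)]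
  rw [h6]
  have h7 : (2 * √(N : ℝ) + 1 + g) ≤ (3 + g) * x := by nlinarith
  have h8 : (2 : ℝ) ^ K / ((N + 1 : ℕ) : ℝ) + 2 * (K.choose (K / 2) : ℝ) ≤ 3 * (2 ^ K * (x ^ 2)⁻¹) := by
    linarith
  calc (2 * √(N : ℝ) + 1 + g) * (2 ^ K / ((N + 1 : ℕ) : ℝ) + 2 * (K.choose (K / 2) : ℝ))
      ≤ ((3 + g) * x) * (3 * (2 ^ K * (x ^ 2)⁻¹)) := by
        apply mul_le_mul h7 h8 (by positivity) (by positivity)
    _ = (9 + 3 * g) * x⁻¹ * 2 ^ K := by
        field_simp
        ring

/-- averaging -/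
theorem fourth_root {x lam : ℝ} (hx : 0 ≤ x) (hl : 0 < lam) :
    x ^ (1 / 4 : ℝ) ≤ lam ^ (1 / 4 : ℝ) * (3 + x / lam) / 4 := by
  have h1 : x = (x ^ (1 / 4 : ℝ)) ^ 4 := by
    rw [← Real.rpow_natCast, ← Real.rpow_mul hx]
    norm_num
  have h2 : lam = (lam ^ (1 / 4 : ℝ)) ^ 4 := by
    rw [← Real.rpow_natCast, ← Real.rpow_mul hl.le]
    norm_num
  set a := x ^ (1 / 4 : ℝ) with ha
  set b := lam ^ (1 / 4 : ℝ) with hb
  have ha0 : 0 ≤ a := Real.rpow_nonneg hx _
  have hb0 : 0 < b := Real.rpow_pos_of_pos hl _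
  rw [h1, h2]
  have h3 : b * (3 + a ^ 4 / b ^ 4) / 4 = (3 * b ^ 4 + a ^ 4) / (4 * b ^ 3) := by
    field_simp
  rw [h3, le_div_iff₀ (by positivity)]
  nlinarith [sq_nonneg (a ^ 2 - b ^ 2), sq_nonneg (a * b - b ^ 2), sq_nonneg (a - b),
    mul_nonneg ha0 hb0.le, sq_nonneg (a * (a - b)), sq_nonneg (b * (a - b))]

end Pool.Agent.E8helper48.RX
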