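import Pool.Agent.E8helper48.RW.Blocks
import Pool.Agent.E8helper48.RW.Poly
import Pool.Agent.E8helper48.RX.Comb
import Pool.Agent.TH379.PER.Three

/-!
# Random products near the linear forms in logarithms
-/

set_option autoImplicit false
set_option linter.unusedSectionVars false

namespace Pool.Agent.E8helper48.RX

open Module
open Pool.Agent.H301R2.SSE (QB mem_QB Lt Lt_alg Lt_log)
open Pool.Agent.E8helper48.RW
open Pool.Agent.TH379.PER

/-- spaces of multiples of polynomials in a transcendental number -/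
theorem inf_dim {τ μ : ℂ} (hτ : Transcendental ℚ τ) (V W : Submodule QB ℂ)
    [FiniteDimensional QB V] [FiniteDimensional QB W] (N : ℕ)
    (hW : W ≤ (powSpan τ (N + 1)).map (mm μ)) (hWL : W ≤ Lt ⊔ V) :
    (finrank QB W : ℝ) ≤ 2 * √(N : ℝ) + 1 + finrank QB V := by
  refine opt _ N _ fun d hd => ?_
  have h1 := core (d := d) (fun i => τ ^ (i : ℕ)) (pow_indep hτ d) W
    ((powSpan τ (N + d)).map (mm μ)) V ?_ hWL
  · have h2 : finrank QB ((powSpan τ (N + d)).map (mm μ)) ≤ N + d :=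
      (Submodule.finrank_map_le _ _).trans (finrank_powSpan_le τ (N + d))
    obtain ⟨e, rfl⟩ : ∃ e, d = e + 1 := ⟨d - 1, by omega⟩
    have h7 : (e + 1) ^ 2 = (e + 1) * (e + 1 - 1) + (e + 1) := by
      rw [Nat.add_sub_cancel]; ring
    omega
  · intro i v hv
    obtain ⟨u, hu, rfl⟩ := hW hv
    refine ⟨τ ^ (i : ℕ) * u, ?_, by rw [mm_apply, mm_apply]; ring⟩
    refine Submodule.span_induction
      (p := fun v _ => τ ^ (i : ℕ) * v ∈ powSpan τ (N + d)) ?_ ?_ ?_ ?_ hu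
    · rintro _ ⟨k, rfl⟩
      have h1 := i.isLt
      have h2 := k.isLt
      show τ ^ (i : ℕ) * τ ^ (k : ℕ) ∈ _
      rw [← pow_add]
      exact pow_mem (by omega)
    · rw [mul_zero]; exact Submodule.zero_mem _
    · intro v w _ _ h h'
      rw [mul_add]; exact Submodule.add_mem _ h h'
    · intro c v _ h
      rw [mul_smul_comm]
      exact Submodule.smul_mem _ c h

/-- windows of exponents -/
theorem window {τ ν : ℂ} (hτ : Transcendental ℚ τ) (hν : ν ≠ 0) (V : Submodule QB ℂ)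
    [FiniteDimensional QB V] [DecidablePred fun j : ℕ => ν * τ ^ j ∈ Lt ⊔ V] (a N : ℕ) :
    (((Finset.range (N + 1)).filter fun i => ν * τ ^ (a + i) ∈ Lt ⊔ V).card : ℝ) ≤
      2 * √(N : ℝ) + 1 + finrank QB V := by
  classical
  set J : Finset ℕ := (Finset.range (N + 1)).filter fun i => ν * τ ^ (a + i) ∈ Lt ⊔ V with hJ
  have hτ0 := transc_ne_zero hτ
  have hlt : ∀ i : J, (i : ℕ) < N + 1 := fun i =>
    Finset.mem_range.1 (Finset.mem_of_mem_filter _ i.2)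
  let z : J → ℂ := fun i => (ν * τ ^ a) * τ ^ (i : ℕ)
  have hz : ∀ i, z i = ν * τ ^ (a + (i : ℕ)) := fun i => by
    show (ν * τ ^ a) * τ ^ (i : ℕ) = _
    rw [pow_add]; ring
  let W : Submodule QB ℂ := Submodule.span QB (Set.range z)
  have : FiniteDimensional QB W := FiniteDimensional.span_of_finite QB (Set.finite_range _)
  have hli : LinearIndependent QB z := by
    have h1 := (pow_indep hτ (N + 1)).comp (fun i : J => (⟨(i : ℕ), hlt i⟩ : Fin (N + 1)))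
      (by
        intro x y hxy
        exact Subtype.ext (congrArg (fun w : Fin (N + 1) => (w : ℕ)) hxy))
    exact h1.map' (mm (ν * τ ^ a)) (LinearMap.ker_eq_bot.2 (mm_inj (mul_ne_zero hν (pow_ne_zero _ hτ0))))
  have h2 : finrank QB W = J.card := by
    rw [finrank_span_eq_card hli, Fintype.card_coe]
  have h3 := inf_dim (τ := τ) (μ := ν * τ ^ a) hτ V W N (by
    rw [Submodule.span_le]
    rintro _ ⟨i, rfl⟩
    exact ⟨τ ^ (i : ℕ), pow_mem (hlt i), rfl⟩) (by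
    rw [Submodule.span_le]
    rintro _ ⟨i, rfl⟩
    rw [hz]
    exact (Finset.mem_filter.1 i.2).2)
  rw [h2] at h3
  exact h3

section

variable {κ : Type} [Fintype κ] [DecidableEq κ]

/-- the average of `F` over the class of a word -/
noncomputable def GA (t : κ → ℂ) (i₀ i₁ : κ) : List κ → (ℂ → ℝ) → ℝ
  | [], F => F 1
  | u :: l, F => if u = i₀ ∨ u = i₁ then
      (GA t i₀ i₁ l (fun z => F (t i₀ * z)) + GA t i₀ i₁ l (fun z => F (t i₁ * z))) / 2
    else GA t i₀ i₁ l (fun z => F (t u * z))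

theorem S_GA (t : κ → ℂ) {i₀ i₁ : κ} (h : i₀ ≠ i₁) (d : ℕ) : ∀ F : ℂ → ℝ,
    S d (fun l => F (PP t l)) = S d (fun l => GA t i₀ i₁ l F) := by
  induction d with
  | zero => intro F; rfl
  | succ d ih =>
    intro F
    rw [S_succ, S_succ]
    simp only [PP]
    rw [Finset.sum_congr rfl fun u _ => ih (fun z => F (t u * z))]
    apply sum_two h
    · intro u hu
      refine S_congr d fun l _ => ?_
      rw [GA, if_neg hu]
    · have h1 : ∀ u, (u = i₀ ∨ u = i₁) → S d (fun l => GA t i₀ i₁ (u :: l) F) =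
          (1 / 2) * (S d (fun l => GA t i₀ i₁ l (fun z => F (t i₀ * z))) +
            S d (fun l => GA t i₀ i₁ l (fun z => F (t i₁ * z)))) := by
        intro u hu
        rw [← S_add, ← S_smul]
        refine S_congr d fun l _ => ?_
        rw [GA, if_pos hu]
        ring
      rw [h1 i₀ (Or.inl rfl), h1 i₁ (Or.inr rfl)]
      ring

theorem GA_eq {t : κ → ℂ} (ht : ∀ u, t u ≠ 0) (i₀ i₁ : κ) (l : List κ) :
    ∃ r : ℂ, r ≠ 0 ∧ ∀ F : ℂ → ℝ, GA t i₀ i₁ l F =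
      (∑ ij ∈ Finset.HasAntidiagonal.antidiagonal (Kc i₀ i₁ l), ((Kc i₀ i₁ l).choose ij.1 : ℝ) *
        F (r * (t i₀ ^ ij.1 * t i₁ ^ ij.2))) / 2 ^ Kc i₀ i₁ l := by
  induction l with
  | nil =>
    refine ⟨1, one_ne_zero, fun F => ?_⟩
    simp [GA, Kc]
  | cons u l ih =>
    obtain ⟨r, hr, ih⟩ := ih
    by_cases hu : u = i₀ ∨ u = i₁
    · refine ⟨r, hr, fun F => ?_⟩
      rw [GA, if_pos hu, Kc, if_pos hu, ih, ih,
        Finset.sum_antidiagonal_choose_succ_mul (fun i j => F (r * (t i₀ ^ i * t i₁ ^ j)))]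
      have e1 : ∑ ij ∈ Finset.HasAntidiagonal.antidiagonal (Kc i₀ i₁ l), ((Kc i₀ i₁ l).choose ij.2 : ℝ) *
            F (r * (t i₀ ^ (ij.1 + 1) * t i₁ ^ ij.2)) =
          ∑ ij ∈ Finset.HasAntidiagonal.antidiagonal (Kc i₀ i₁ l), ((Kc i₀ i₁ l).choose ij.1 : ℝ) *
            F (t i₀ * (r * (t i₀ ^ ij.1 * t i₁ ^ ij.2))) := by
        refine Finset.sum_congr rfl fun ij hij => ?_
        have h2 := Finset.HasAntidiagonal.mem_antidiagonal.1 hij
        have h3 : (Kc i₀ i₁ l).choose ij.2 = (Kc i₀ i₁ l).choose ij.1 := by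
          rw [← h2]
          exact Nat.choose_symm_add.symm
        rw [h3]
        congr 2
        ring
      have e2 : ∑ ij ∈ Finset.HasAntidiagonal.antidiagonal (Kc i₀ i₁ l), ((Kc i₀ i₁ l).choose ij.1 : ℝ) *
            F (r * (t i₀ ^ ij.1 * t i₁ ^ (ij.2 + 1))) =
          ∑ ij ∈ Finset.HasAntidiagonal.antidiagonal (Kc i₀ i₁ l), ((Kc i₀ i₁ l).choose ij.1 : ℝ) *
            F (t i₁ * (r * (t i₀ ^ ij.1 * t i₁ ^ ij.2))) := by
        refine Finset.sum_congr rfl fun ij hij => ?_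
        congr 2
        ring
      rw [e1, e2, pow_succ]
      field_simp
      ring
    · refine ⟨t u * r, mul_ne_zero (ht u) hr, fun F => ?_⟩
      rw [GA, if_neg hu, Kc, if_neg hu, ih]
      congr 1
      refine Finset.sum_congr rfl fun ij _ => ?_
      congr 2
      ring

theorem GA_le {t : κ → ℂ} (ht : ∀ u, t u ≠ 0) {i₀ i₁ : κ} (hτ : Transcendental ℚ (t i₀ / t i₁))
    (V : Submodule QB ℂ) [FiniteDimensional QB V] {y : ℂ} (hy : y ≠ 0) (l : List κ) :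
    GA t i₀ i₁ l (fun z => ind (y * z ∈ Lt ⊔ V)) ≤
      (9 + 3 * (finrank QB V : ℝ)) * ((Kc i₀ i₁ l : ℝ) + 1)⁻¹ ^ (1 / 4 : ℝ) := by
  classical
  obtain ⟨r, hr, h⟩ := GA_eq ht i₀ i₁ l
  rw [h]
  set K := Kc i₀ i₁ l with hK
  set ν : ℂ := y * r * t i₁ ^ K with hν
  have hν0 : ν ≠ 0 := mul_ne_zero (mul_ne_zero hy hr) (pow_ne_zero _ (ht _))
  have h1 : ∑ ij ∈ Finset.HasAntidiagonal.antidiagonal K, (K.choose ij.1 : ℝ) *
      ind (y * (r * (t i₀ ^ ij.1 * t i₁ ^ ij.2)) ∈ Lt ⊔ V) =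
      ∑ j ∈ (Finset.range (K + 1)).filter (fun j => ν * (t i₀ / t i₁) ^ j ∈ Lt ⊔ V),
        (K.choose j : ℝ) := by
    rw [Finset.Nat.sum_antidiagonal_eq_sum_range_succ
      (fun i j => (K.choose i : ℝ) * ind (y * (r * (t i₀ ^ i * t i₁ ^ j)) ∈ Lt ⊔ V)),
      Finset.sum_filter]
    refine Finset.sum_congr rfl fun j hj => ?_
    have hj' : j ≤ K := Nat.lt_succ_iff.1 (Finset.mem_range.1 hj)
    have e1 : y * (r * (t i₀ ^ j * t i₁ ^ (K - j))) = ν * (t i₀ / t i₁) ^ j := by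
      have e2 : t i₁ ^ K = t i₁ ^ (K - j) * t i₁ ^ j := by
        rw [← pow_add, Nat.sub_add_cancel hj']
      rw [hν, e2, div_pow]
      have := ht i₁
      field_simp
    rw [e1]
    by_cases h2 : ν * (t i₀ / t i₁) ^ j ∈ Lt ⊔ V
    · rw [ind_pos h2, if_pos h2, mul_one]
    · rw [ind_neg h2, if_neg h2, mul_zero]
  rw [h1]
  exact thin' (fun j => ν * (t i₀ / t i₁) ^ j ∈ Lt ⊔ V) K _ (Nat.cast_nonneg _)
    fun a N => window hτ hν0 V a N

/-- **Random products.** -/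
theorem products {t : κ → ℂ} (ht : ∀ u, t u ≠ 0) {i₀ i₁ : κ}
    (hτ : Transcendental ℚ (t i₀ / t i₁)) (V : Submodule QB ℂ) [FiniteDimensional QB V] {y : ℂ}
    (hy : y ≠ 0) (n : ℕ) :
    S n (fun l => ind (y * PP t l ∈ Lt ⊔ V)) ≤
      (finrank QB V + 3) * (Fintype.card κ + 6) * (Fintype.card κ : ℝ) ^ n /
        ((n : ℝ) + 1) ^ (1 / 4 : ℝ) := by
  have hne : i₀ ≠ i₁ := by
    rintro rfl
    rw [div_self (ht i₀)] at hτ
    exact hτ isAlgebraic_one
  rw [S_GA t hne n (fun z => ind (y * z ∈ Lt ⊔ V))]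
  set g : ℝ := (finrank QB V : ℝ) with hg
  have hg0 : 0 ≤ g := Nat.cast_nonneg _
  set q : ℝ := (Fintype.card κ : ℝ) with hq
  have hq0 : 0 ≤ q := Nat.cast_nonneg _
  set lam : ℝ := ((n : ℝ) + 1)⁻¹ with hlam
  have hl : 0 < lam := by positivity
  have h1 : S n (fun l => GA t i₀ i₁ l (fun z => ind (y * z ∈ Lt ⊔ V))) ≤
      S n (fun l => ((9 + 3 * g) * (lam ^ (1 / 4 : ℝ) / 4)) * lam⁻¹ * ((Kc i₀ i₁ l : ℝ) + 1)⁻¹ +
        (9 + 3 * g) * (lam ^ (1 / 4 : ℝ) / 4) * 3) := by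
    refine S_mono n fun l _ => ?_
    refine (GA_le ht hτ V hy l).trans ?_
    have h2 := fourth_root (x := ((Kc i₀ i₁ l : ℝ) + 1)⁻¹) (by positivity) hl
    calc (9 + 3 * g) * ((Kc i₀ i₁ l : ℝ) + 1)⁻¹ ^ (1 / 4 : ℝ)
        ≤ (9 + 3 * g) * (lam ^ (1 / 4 : ℝ) * (3 + ((Kc i₀ i₁ l : ℝ) + 1)⁻¹ / lam) / 4) :=
          mul_le_mul_of_nonneg_left h2 (by positivity)
      _ = _ := by rw [div_eq_mul_inv _ lam]; ring
  refine h1.trans ?_
  rw [S_add, S_smul, S_const]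
  have h2 := S_inv_Kc hne n
  have h3 : lam ^ (1 / 4 : ℝ) = (((n : ℝ) + 1) ^ (1 / 4 : ℝ))⁻¹ := by
    rw [hlam, Real.inv_rpow (by positivity)]
  set x : ℝ := ((n : ℝ) + 1) ^ (1 / 4 : ℝ) with hx
  have hx0 : 0 < x := by positivity
  have h4 : lam⁻¹ = (n : ℝ) + 1 := inv_inv _
  rw [h3, h4]
  have h5 : (9 + 3 * g) * (x⁻¹ / 4) * ((n : ℝ) + 1) * S n (fun l => ((Kc i₀ i₁ l : ℝ) + 1)⁻¹) ≤
      (9 + 3 * g) * (x⁻¹ / 4) * ((n : ℝ) + 1) * (q ^ (n + 1) / (2 * (n + 1))) :=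
    mul_le_mul_of_nonneg_left h2 (by positivity)
  have h6 : (9 + 3 * g) * (x⁻¹ / 4) * ((n : ℝ) + 1) * (q ^ (n + 1) / (2 * (n + 1))) +
      q ^ n * ((9 + 3 * g) * (x⁻¹ / 4) * 3) = (9 + 3 * g) / 8 * (q + 6) * q ^ n / x := by
    field_simp
    ring
  have h7 : (9 + 3 * g) / 8 * (q + 6) * q ^ n / x ≤ (g + 3) * (q + 6) * q ^ n / x := by
    apply div_le_div_of_nonneg_right _ hx0.le
    apply mul_le_mul_of_nonneg_right _ (by positivity)
    apply mul_le_mul_of_nonneg_right _ (by positivity)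
    linarith
  linarith

end

/-- **Random subsums.** -/
theorem subsums {J : Type} [Fintype J] [DecidableEq J] (z : J → ℂ) {θ μ : ℂ}
    (hθ : Transcendental ℚ θ) (hμ : μ ≠ 0) (N : ℕ) (hz : ∀ k ≤ N, ∃ j, z j = μ * θ ^ k)
    (V : Submodule QB ℂ) [FiniteDimensional QB V] (y : ℂ) :
    (Nat.card {r : Finset J // y + ∑ j ∈ r, z j ∈ Lt ⊔ V} : ℝ) ≤
      2 ^ Fintype.card J * (2 : ℝ) ^ (2 * √(N : ℝ) + finrank QB V - N) := by
  classical
  set L := Lt ⊔ V with hL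
  let w : J → (ℂ ⧸ L) := fun j => L.mkQ (z j)
  have h1 := subsets_le (F := QB) w Finset.univ (L.mkQ (-y))
  have hcard : Nat.card {r : Finset J // y + ∑ j ∈ r, z j ∈ L} =
      Nat.card {r : Finset J // r ⊆ Finset.univ ∧ ∑ j ∈ r, w j = L.mkQ (-y)} := by
    apply Nat.card_congr
    apply Equiv.subtypeEquivRight
    intro r
    have e1 : ∑ j ∈ r, w j = L.mkQ (∑ j ∈ r, z j) := by
      rw [map_sum]
    rw [e1, mkQ_eq]
    constructor
    · intro h
      refine ⟨Finset.subset_univ _, ?_⟩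
      rw [sub_neg_eq_add, add_comm]
      exact h
    · rintro ⟨-, h⟩
      rw [sub_neg_eq_add, add_comm] at h
      exact h
  rw [hcard]
  set R := finrank QB (Submodule.span QB (w '' ((Finset.univ : Finset J) : Set _))) with hR
  let T : Submodule QB ℂ := (powSpan θ (N + 1)).map (mm μ)
  have hT : finrank QB T = N + 1 := by
    rw [finrank_map_mm hμ]
    have h3 := finrank_span_eq_card (pow_indep hθ (N + 1))
    rwa [Fintype.card_fin] at h3
  have h2 : FiniteDimensional QB (T ⊓ L : Submodule QB ℂ) :=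
    Submodule.finiteDimensional_of_le inf_le_left
  have h3 := inf_dim (τ := θ) (μ := μ) hθ V (T ⊓ L) N inf_le_left inf_le_right
  have h4 := finrank_map_mkQ T L
  rw [hT] at h4
  have h5 : finrank QB (T.map L.mkQ) ≤ R := by
    have : FiniteDimensional QB (Submodule.span QB (w '' ((Finset.univ : Finset J) : Set _))) :=
      FiniteDimensional.span_of_finite QB ((Finset.finite_toSet _).image w)
    apply Submodule.finrank_mono
    change ((powSpan θ (N + 1)).map (mm μ)).map L.mkQ ≤ _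
    unfold powSpan
    rw [Submodule.map_span, Submodule.map_span, Submodule.span_le]
    rintro _ ⟨_, ⟨_, ⟨k, rfl⟩, rfl⟩, rfl⟩
    obtain ⟨j, hj⟩ := hz k (Nat.lt_succ_iff.1 k.2)
    apply Submodule.subset_span
    refine ⟨j, by simp, ?_⟩
    show L.mkQ (z j) = L.mkQ (mm μ (θ ^ (k : ℕ)))
    rw [hj, mm_apply]
  have h6 : (N : ℝ) - 2 * √(N : ℝ) - finrank QB V ≤ R := by
    have h7 : ((N : ℝ) + 1) ≤ R + finrank QB (T ⊓ L : Submodule QB ℂ) := by
      have : N + 1 ≤ R + finrank QB (T ⊓ L : Submodule QB ℂ) := by omega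
      exact_mod_cast this
    linarith
  have h8 : ((Nat.card {r : Finset J // r ⊆ Finset.univ ∧ ∑ j ∈ r, w j = L.mkQ (-y)} : ℕ) : ℝ) *
      2 ^ R ≤ 2 ^ Fintype.card J := by
    rw [Finset.card_univ] at h1
    exact_mod_cast h1
  have h9 : (1 : ℝ) ≤ 2 ^ R * (2 : ℝ) ^ (2 * √(N : ℝ) + finrank QB V - N) := by
    rw [← Real.rpow_natCast, ← Real.rpow_add (by norm_num)]
    apply Real.one_le_rpow (by norm_num)
    linarith
  have h10 : (0 : ℝ) ≤ ((Nat.card {r : Finset J // r ⊆ Finset.univ ∧ ∑ j ∈ r, w j = L.mkQ (-y)} : ℕ) : ℝ) :=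
    Nat.cast_nonneg _
  have h11 : (0 : ℝ) ≤ (2 : ℝ) ^ (2 * √(N : ℝ) + finrank QB V - N) :=
    Real.rpow_nonneg (by norm_num) _
  calc _ ≤ ((Nat.card {r : Finset J // r ⊆ Finset.univ ∧ ∑ j ∈ r, w j = L.mkQ (-y)} : ℕ) : ℝ) *
        (2 ^ R * (2 : ℝ) ^ (2 * √(N : ℝ) + finrank QB V - N)) :=
        le_mul_of_one_le_right h10 h9
    _ = (((Nat.card {r : Finset J // r ⊆ Finset.univ ∧ ∑ j ∈ r, w j = L.mkQ (-y)} : ℕ) : ℝ) *
        2 ^ R) * (2 : ℝ) ^ (2 * √(N : ℝ) + finrank QB V - N) := by ring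
    _ ≤ _ := mul_le_mul_of_nonneg_right h8 h11

end Pool.Agent.E8helper48.RX
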